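import Pool.Agent.H79.Drift.Stmts

/-!
# The destination of an admissible system
-/

set_option autoImplicit false

namespace Pool.H45.Drift

open Pool.H79.Maze Pool.H79.Drift

lemma pth_abs (s : Sys) : ∀ (n : ℕ) (u : ℤ × ℤ), s.Pth n u →
    |s.d.1 - u.1| ≤ n ∧ |s.d.2 - u.2| ≤ n
  | 0, u, h => by
    have hu : u = s.d := h
    subst hu
    simp
  | n + 1, u, h => by
    obtain ⟨_, I, _, h2⟩ := h
    obtain ⟨h3, h4⟩ := pth_abs s n _ h2
    have e1 : (u + I.vec).1 = u.1 + I.vec.1 := rfl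
    have e2 : (u + I.vec).2 = u.2 + I.vec.2 := rfl
    rw [e1] at h3
    rw [e2] at h4
    have b1 : |I.vec.1| ≤ 1 := by cases I <;> decide
    have b2 : |I.vec.2| ≤ 1 := by cases I <;> decide
    rw [abs_le] at h3 h4 b1 b2 ⊢
    rw [abs_le]
    push_cast
    refine ⟨⟨?_, ?_⟩, ?_, ?_⟩ <;> linarith [h3.1, h3.2, h4.1, h4.2, b1.1, b1.2, b2.1, b2.2]

/-- PTB. -/
theorem ptb : PTBStmt := by
  intro a b k s hs
  obtain ⟨n, hn, hp⟩ := hs.path
  obtain ⟨h1, h2⟩ := pth_abs s n 0 hp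
  have hnk : (n : ℤ) ≤ k := by exact_mod_cast hn
  have z1 : (0 : ℤ × ℤ).1 = 0 := rfl
  have z2 : (0 : ℤ × ℤ).2 = 0 := rfl
  rw [z1, sub_zero, abs_le] at h1
  rw [z2, sub_zero, abs_le] at h2
  unfold Box
  rw [Finset.mem_product, Finset.mem_Icc, Finset.mem_Icc]
  exact ⟨⟨by linarith [h1.1], by linarith [h1.2]⟩, by linarith [h2.1], by linarith [h2.2]⟩

end Pool.H45.Drift
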